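import Mathlib

namespace Pool.Agent.U342.SD

/-- The upper set `↑x` of `x` in the specialization order: `x ≤ y` iff `x ∈ closure {y}`. -/
def up {X : Type*} [TopologicalSpace X] (x : X) : Set X := {y | x ∈ closure {y}}

/-- Strong `d`-spaces. -/
def StrongDSpace (X : Type*) [TopologicalSpace X] : Prop :=
  T0Space X ∧ ∀ D : Set X, D.Nonempty → DirectedOn (fun x y => x ∈ closure {y}) D →
    ∀ (x : X) (U : Set X), IsOpen U → (⋂ d ∈ D, up d) ∩ up x ⊆ U → ∃ d ∈ D, up d ∩ up x ⊆ U

/-- The points of the countable space `Z`. -/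
inductive Z : Type
  | a : Z
  | e : Z
  | m : ℕ → Z
  | t : Z
  | b : Z
  | z : Z
  | d : ℕ → Z
  | w : ℕ → Z

/-- The intended specialization order: `a, e < m j`; `d 0 < d 1 < ... < t < z`, `d k < w k`,
`b < z`, `b < w k`. -/
def R : Z → Z → Prop
  | .a, .a => True
  | .a, .m _ => True
  | .e, .e => True
  | .e, .m _ => True
  | .m i, .m j => i = j
  | .t, .t => True
  | .t, .z => True
  | .b, .b => True
  | .b, .z => True
  | .b, .w _ => True
  | .z, .z => True
  | .d i, .d j => i ≤ j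
  | .d _, .t => True
  | .d _, .z => True
  | .d i, .w k => i ≤ k
  | .w i, .w j => i = j
  | _, _ => False

/-- Open sets: upper sets such that a set containing `z` contains almost all `w k`, and a set
containing `t` contains almost all `d k`. -/
def Op (U : Set Z) : Prop :=
  (∀ x y, R x y → x ∈ U → y ∈ U) ∧ (Z.z ∈ U → ∃ N, ∀ k ≥ N, Z.w k ∈ U) ∧
    (Z.t ∈ U → ∃ N, ∀ k ≥ N, Z.d k ∈ U)

instance : TopologicalSpace Z where
  IsOpen := Op
  isOpen_univ := ⟨fun _ _ _ _ => trivial, fun _ => ⟨0, fun _ _ => trivial⟩,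
    fun _ => ⟨0, fun _ _ => trivial⟩⟩
  isOpen_inter := by
    rintro U V ⟨h1, h2, h3⟩ ⟨g1, g2, g3⟩
    refine ⟨fun x y h hx => ⟨h1 x y h hx.1, g1 x y h hx.2⟩, fun h => ?_, fun h => ?_⟩
    · obtain ⟨N, hN⟩ := h2 h.1
      obtain ⟨M, hM⟩ := g2 h.2
      exact ⟨max N M, fun k hk => ⟨hN k (le_trans (le_max_left _ _) hk),
        hM k (le_trans (le_max_right _ _) hk)⟩⟩
    · obtain ⟨N, hN⟩ := h3 h.1
      obtain ⟨M, hM⟩ := g3 h.2
      exact ⟨max N M, fun k hk => ⟨hN k (le_trans (le_max_left _ _) hk),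
        hM k (le_trans (le_max_right _ _) hk)⟩⟩
  isOpen_sUnion := by
    intro S hS
    refine ⟨fun x y h hx => ?_, fun h => ?_, fun h => ?_⟩
    · obtain ⟨U, hU, hx⟩ := hx
      exact ⟨U, hU, (hS U hU).1 x y h hx⟩
    · obtain ⟨U, hU, hx⟩ := h
      obtain ⟨N, hN⟩ := (hS U hU).2.1 hx
      exact ⟨N, fun k hk => ⟨U, hU, hN k hk⟩⟩
    · obtain ⟨U, hU, hx⟩ := h
      obtain ⟨N, hN⟩ := (hS U hU).2.2 hx
      exact ⟨N, fun k hk => ⟨U, hU, hN k hk⟩⟩

theorem isOpen_iff (U : Set Z) : IsOpen U ↔ Op U := Iff.rfl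

theorem R_refl (x : Z) : R x x := by cases x <;> simp [R]

theorem R_trans {x y z : Z} (h : R x y) (h' : R y z) : R x z := by
  cases x <;> cases y <;> cases z <;> simp_all [R] <;> omega

theorem R_antisymm {x y : Z} (h : R x y) (h' : R y x) : x = y := by
  cases x <;> cases y <;> simp_all [R] <;> omega

theorem open_compl (y : Z) : IsOpen {x | ¬ R x y} := by
  refine ⟨fun x x' h hx h' => hx (R_trans h h'), fun h => ?_, fun h => ?_⟩
  · cases y with
    | w k => exact ⟨k + 1, fun i hi hR => by simp only [R] at hR; omega⟩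
    | z => exact absurd (R_refl _) h
    | _ => exact ⟨0, fun i _ hR => by simp [R] at hR⟩
  · cases y with
    | t => exact absurd (R_refl _) h
    | z => exact absurd trivial h
    | d k => exact ⟨k + 1, fun i hi hR => by simp only [R] at hR; omega⟩
    | w k => exact ⟨k + 1, fun i hi hR => by simp only [R] at hR; omega⟩
    | _ => exact ⟨0, fun i _ hR => by simp [R] at hR⟩

theorem mem_closure_iff_R (x y : Z) : x ∈ closure {y} ↔ R x y := by
  rw [mem_closure_iff]
  constructor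
  · intro h
    by_contra hR
    obtain ⟨z, hz, hz'⟩ := h _ (open_compl y) hR
    rw [Set.mem_singleton_iff] at hz'
    subst hz'
    exact hz (R_refl _)
  · intro h U hU hx
    exact ⟨y, hU.1 x y h hx, rfl⟩

theorem up_eq (x : Z) : up x = {y | R x y} := by
  ext y
  exact mem_closure_iff_R x y

theorem t0 : T0Space Z := by
  refine ⟨fun x y h => ?_⟩
  have h1 : x ∈ closure {y} := h.symm.specializes.mem_closure
  have h2 : y ∈ closure {x} := h.specializes.mem_closure
  rw [mem_closure_iff_R] at h1 h2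
  exact R_antisymm h1 h2

theorem R_m {j : ℕ} {q : Z} (h : R (.m j) q) : q = .m j := by
  cases q <;> simp_all [R]

theorem R_w {j : ℕ} {q : Z} (h : R (.w j) q) : q = .w j := by
  cases q <;> simp_all [R]

theorem R_z {q : Z} (h : R .z q) : q = .z := by
  cases q <;> simp_all [R]

theorem R_a {q : Z} (h : R .a q) : q = .a ∨ ∃ j, q = .m j := by
  cases q <;> simp_all [R]

theorem R_e {q : Z} (h : R .e q) : q = .e ∨ ∃ j, q = .m j := by
  cases q <;> simp_all [R]

theorem R_t {q : Z} (h : R .t q) : q = .t ∨ q = .z := by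
  cases q <;> simp_all [R]

theorem R_b {q : Z} (h : R .b q) : q = .b ∨ q = .z ∨ ∃ j, q = .w j := by
  cases q <;> simp_all [R]

theorem R_d {n : ℕ} {q : Z} (h : R (.d n) q) :
    (∃ j, n ≤ j ∧ q = .d j) ∨ q = .t ∨ q = .z ∨ ∃ j, n ≤ j ∧ q = .w j := by
  cases q <;> simp_all [R]

theorem strong : StrongDSpace Z := by
  refine ⟨t0, fun D hne hdir x U hU hsub => ?_⟩
  simp only [mem_closure_iff_R] at hdir
  simp only [up_eq] at hsub ⊢
  by_cases hmax : ∃ p ∈ D, ∀ q ∈ D, R q p
  · obtain ⟨p, hp, hq⟩ := hmax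
    refine ⟨p, hp, fun y hy => hsub ⟨?_, hy.2⟩⟩
    rw [Set.mem_iInter₂]
    exact fun q hq' => R_trans (hq q hq') hy.1
  -- a directed set without a largest element is a cofinal part of the chain `d`
  have key : ∀ p ∈ D, (∀ q ∈ D, R p q → q = p) → False := by
    intro p hp h
    refine hmax ⟨p, hp, fun q hq => ?_⟩
    obtain ⟨r, hr, h1, h2⟩ := hdir p hp q hq
    rw [h r hr h1] at h2
    exact h2
  have hm : ∀ j, Z.m j ∉ D := fun j hj => key _ hj fun q _ h => R_m h
  have hz : Z.z ∉ D := fun hj => key _ hj fun q _ h => R_z h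
  have hw : ∀ j, Z.w j ∉ D := fun j hj => key _ hj fun q _ h => R_w h
  have ha : Z.a ∉ D := fun hj => key _ hj fun q hq h => by
    rcases R_a h with rfl | ⟨j, rfl⟩
    · rfl
    · exact absurd hq (hm j)
  have he : Z.e ∉ D := fun hj => key _ hj fun q hq h => by
    rcases R_e h with rfl | ⟨j, rfl⟩
    · rfl
    · exact absurd hq (hm j)
  have ht : Z.t ∉ D := fun hj => key _ hj fun q hq h => by
    rcases R_t h with rfl | rfl
    · rfl
    · exact absurd hq hz
  have hb : Z.b ∉ D := fun hj => key _ hj fun q hq h => by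
    rcases R_b h with rfl | rfl | ⟨j, rfl⟩
    · rfl
    · exact absurd hq hz
    · exact absurd hq (hw j)
  have hD : ∀ p ∈ D, ∃ n, p = Z.d n := by
    intro p hp
    cases p with
    | d n => exact ⟨n, rfl⟩
    | a => exact absurd hp ha
    | e => exact absurd hp he
    | m j => exact absurd hp (hm j)
    | t => exact absurd hp ht
    | b => exact absurd hp hb
    | z => exact absurd hp hz
    | w j => exact absurd hp (hw j)
  have hcof : ∀ N, ∃ n ≥ N, Z.d n ∈ D := by
    intro N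
    by_contra hcon
    push Not at hcon
    obtain ⟨p, hp⟩ := hne
    obtain ⟨n0, rfl⟩ := hD p hp
    have hbdd : BddAbove {n | Z.d n ∈ D} := ⟨N, fun n hn => by
      by_contra h
      exact hcon n (by omega) hn⟩
    have hmem := Nat.sSup_mem ⟨n0, hp⟩ hbdd
    refine hmax ⟨_, hmem, fun q hq => ?_⟩
    obtain ⟨n, rfl⟩ := hD q hq
    exact le_csSup hbdd hq
  have hall : ∀ y, R Z.t y → y ∈ ⋂ d ∈ D, {y | R d y} := by
    intro y hy
    rw [Set.mem_iInter₂]
    intro p hp
    obtain ⟨n, rfl⟩ := hD p hp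
    exact R_trans (y := Z.t) trivial hy
  cases x with
  | a =>
    obtain ⟨n, _, hn⟩ := hcof 0
    refine ⟨_, hn, fun y hy => ?_⟩
    rcases R_a hy.2 with rfl | ⟨j, rfl⟩ <;> exact absurd hy.1 (by simp [R])
  | e =>
    obtain ⟨n, _, hn⟩ := hcof 0
    refine ⟨_, hn, fun y hy => ?_⟩
    rcases R_e hy.2 with rfl | ⟨j, rfl⟩ <;> exact absurd hy.1 (by simp [R])
  | m j =>
    obtain ⟨n, _, hn⟩ := hcof 0
    refine ⟨_, hn, fun y hy => ?_⟩
    obtain rfl := R_m hy.2
    exact absurd hy.1 (by simp [R])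
  | t =>
    obtain ⟨n, _, hn⟩ := hcof 0
    exact ⟨_, hn, fun y hy => hsub ⟨hall y hy.2, hy.2⟩⟩
  | z =>
    obtain ⟨n, _, hn⟩ := hcof 0
    exact ⟨_, hn, fun y hy => hsub ⟨hall y (R_trans (y := Z.z) trivial hy.2), hy.2⟩⟩
  | b =>
    have h1 : Z.z ∈ U := hsub ⟨hall _ trivial, trivial⟩
    obtain ⟨N, hN⟩ := hU.2.1 h1
    obtain ⟨n, hn, hn'⟩ := hcof N
    refine ⟨_, hn', fun y hy => ?_⟩
    obtain ⟨h3, h4⟩ := hy
    rcases R_b h4 with rfl | rfl | ⟨k, rfl⟩
    · exact absurd h3 (by simp [R])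
    · exact h1
    · exact hN k (le_trans hn h3)
  | d i =>
    have h1 : Z.z ∈ U := hsub ⟨hall _ trivial, trivial⟩
    have h2 : Z.t ∈ U := hsub ⟨hall _ trivial, trivial⟩
    obtain ⟨N, hN⟩ := hU.2.1 h1
    obtain ⟨M, hM⟩ := hU.2.2 h2
    obtain ⟨n, hn, hn'⟩ := hcof (max N M)
    refine ⟨_, hn', fun y hy => ?_⟩
    obtain ⟨h3, h4⟩ := hy
    rcases R_d h3 with ⟨k, hk, rfl⟩ | rfl | rfl | ⟨k, hk, rfl⟩
    · exact hM k (le_trans (le_trans (le_max_right _ _) hn) hk)
    · exact h2
    · exact h1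
    · exact hN k (le_trans (le_trans (le_max_left _ _) hn) hk)
  | w k =>
    obtain ⟨n, hn, hn'⟩ := hcof (k + 1)
    refine ⟨_, hn', fun y hy => ?_⟩
    obtain ⟨h3, h4⟩ := hy
    obtain rfl := R_w h4
    have : n ≤ k := h3
    omega

theorem mem_up_pi {ι : Type*} {X : ι → Type*} [∀ i, TopologicalSpace (X i)] (f g : ∀ i, X i) :
    g ∈ up f ↔ ∀ i, g i ∈ up (f i) := by
  unfold up
  simp only [Set.mem_ofPred_eq, ← specializes_iff_mem_closure]
  exact specializes_pi

/-- The square of `Z` is not a strong `d`-space. -/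
theorem not_strong : ¬ StrongDSpace (Bool → Z) := by
  rintro ⟨-, h⟩
  let f : ℕ → Bool → Z := fun n i => if i then Z.d n else Z.a
  let x : Bool → Z := fun i => if i then Z.b else Z.e
  let V : ℕ → Set Z := fun j => {y | y = Z.z ∨ ∃ k, j < k ∧ y = Z.w k}
  have hV : ∀ j, IsOpen (V j) := by
    intro j
    refine ⟨fun p q hpq hp => ?_, fun _ => ⟨j + 1, fun k hk => Or.inr ⟨k, hk, rfl⟩⟩, fun ht => ?_⟩
    · rcases hp with rfl | ⟨k, hk, rfl⟩
      · obtain rfl := R_z hpq
        exact Or.inl rfl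
      · obtain rfl := R_w hpq
        exact Or.inr ⟨k, hk, rfl⟩
    · simp [V] at ht
  have hm : ∀ j, IsOpen ({Z.m j} : Set Z) := by
    intro j
    refine ⟨fun p q hpq hp => ?_, fun h => by simp at h, fun h => by simp at h⟩
    rw [Set.mem_singleton_iff] at hp
    subst hp
    exact R_m hpq
  let U : Set (Bool → Z) := ⋃ j, {g | g false ∈ ({Z.m j} : Set Z)} ∩ {g | g true ∈ V j}
  have hU : IsOpen U := by
    refine isOpen_iUnion fun j => IsOpen.inter ?_ ?_
    · exact (hm j).preimage (continuous_apply false)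
    · exact (hV j).preimage (continuous_apply true)
  have hup : ∀ p q : Z, q ∈ up p ↔ R p q := mem_closure_iff_R
  obtain ⟨d, ⟨n, rfl⟩, hd⟩ := h (Set.range f) ⟨_, 0, rfl⟩ (by
    rintro _ ⟨n, rfl⟩ _ ⟨k, rfl⟩
    refine ⟨f (max n k), ⟨_, rfl⟩, ?_, ?_⟩
    · have : f (max n k) ∈ up (f n) := (mem_up_pi _ _).2 fun i => (hup _ _).2 (by
        cases i
        · simp [f, R]
        · simp [f, R])
      exact this
    · have : f (max n k) ∈ up (f k) := (mem_up_pi _ _).2 fun i => (hup _ _).2 (by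
        cases i
        · simp [f, R]
        · simp [f, R])
      exact this) x U hU (by
    rintro g ⟨h1, h2⟩
    rw [Set.mem_iInter₂] at h1
    have h3 := ((hup _ _).1 ((mem_up_pi _ _).1 h2 false))
    have h4 := ((hup _ _).1 ((mem_up_pi _ _).1 h2 true))
    have h5 := ((hup _ _).1 ((mem_up_pi _ _).1 (h1 (f 0) ⟨0, rfl⟩) false))
    have h6 : ∀ n, R (Z.d n) (g true) := fun n =>
      ((hup _ _).1 ((mem_up_pi _ _).1 (h1 (f n) ⟨n, rfl⟩) true))
    simp only [x, f, Bool.false_eq_true, if_false, if_true] at h3 h4 h5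
    obtain ⟨j, hj⟩ : ∃ j, g false = Z.m j := by
      rcases R_a h5 with h | h
      · rw [h] at h3
        exact h3.elim
      · exact h
    have hz : g true = Z.z := by
      rcases R_b h4 with h | h | ⟨k, h⟩
      · have := h6 0
        rw [h] at this
        exact this.elim
      · exact h
      · have := h6 (k + 1)
        rw [h] at this
        have : k + 1 ≤ k := this
        omega
    rw [Set.mem_iUnion]
    exact ⟨j, hj, Or.inl hz⟩)
  have hg : (fun i : Bool => if i then Z.w n else Z.m n) ∈ up (f n) ∩ up x := by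
    constructor
    · refine (mem_up_pi _ _).2 fun i => (hup _ _).2 ?_
      cases i <;> simp [f, R]
    · refine (mem_up_pi _ _).2 fun i => (hup _ _).2 ?_
      cases i <;> simp [x, R]
  have := hd hg
  rw [Set.mem_iUnion] at this
  obtain ⟨j, h1, h2⟩ := this
  simp only [Set.mem_ofPred_eq, Bool.false_eq_true, if_false, Set.mem_singleton_iff, if_true, V]
    at h1 h2
  rcases h2 with h2 | ⟨k, hk, h2⟩
  · exact absurd h2 (by simp)
  · simp only [Z.m.injEq, Z.w.injEq] at h1 h2
    omega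

/-- Being a strong `d`-space is a topological property. -/
theorem StrongDSpace.of_homeomorph {X Y : Type*} [TopologicalSpace X] [TopologicalSpace Y]
    (h : X ≃ₜ Y) (hX : StrongDSpace X) : StrongDSpace Y := by
  obtain ⟨h0, hD⟩ := hX
  have hup : ∀ p q : X, h q ∈ up (h p) ↔ q ∈ up p := by
    intro p q
    unfold up
    simp only [Set.mem_ofPred_eq, ← specializes_iff_mem_closure]
    exact h.isInducing.specializes_iff
  refine ⟨h.symm.isEmbedding.t0Space, fun D hne hdir x U hU hsub => ?_⟩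
  obtain ⟨d, hd, hd'⟩ := hD (h ⁻¹' D) (by
    obtain ⟨y, hy⟩ := hne
    exact ⟨h.symm y, by simpa using hy⟩) (by
    intro p hp q hq
    obtain ⟨r, hr, h1, h2⟩ := hdir (h p) hp (h q) hq
    refine ⟨h.symm r, by simpa using hr, ?_, ?_⟩
    · exact (hup p (h.symm r)).1 (by simpa [up] using h1)
    · exact (hup q (h.symm r)).1 (by simpa [up] using h2)) (h.symm x) (h ⁻¹' U)
    (hU.preimage h.continuous) (by
    rintro y ⟨h1, h2⟩
    refine hsub ⟨?_, ?_⟩
    · rw [Set.mem_iInter₂] at h1 ⊢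
      intro d hd
      have := (hup (h.symm d) y).2 (h1 (h.symm d) (by simpa using hd))
      simpa using this
    · have := (hup (h.symm x) y).2 h2
      simpa using this)
  refine ⟨h d, hd, ?_⟩
  rintro y ⟨h1, h2⟩
  have := hd' (a := h.symm y) ⟨(hup d (h.symm y)).1 (by simpa using h1),
    (hup (h.symm x) (h.symm y)).1 (by simpa using h2)⟩
  simpa using this

end Pool.Agent.U342.SD
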